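import Mathlib
import Pool.Agent.Y796.DG.C
import Pool.Agent.Y796.DG.D
import Pool.Agent.Y796.DG.E

set_option autoImplicit false

/-!
# Subgroups of Thompson's group `F` no finite index subgroup of which is a diagram group

`ZwrZ` is the wreath product `ℤ ≀ ℤ` (pairs `(f, k)` with `f : ℤ → ℤ` finitely supported) and
`Hn n ≤ ZwrZ` is the subgroup of the pairs `(f, k)` such that `n` divides the sum of the values of
`f` (`Pool/Agent/Y796/DG/A.lean` and `D.lean`). `F` is Thompson's group (`Pool/Agent/Y796/DG/E.lean`,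
the subgroup `ThompsonF` of the group of order isomorphisms of `[0, 1]`) and
`DiagramGroup R w` is the diagram group of the semigroup presentation `⟨α | R⟩` with base word `w`
(`Pool/Agent/H476R3/ThF.lean` and `Diag.lean`).
-/

namespace Pool.Agent.Results.MP_24b811_al.NeverVirtuallyDiagramGroup

open Pool.Agent.H476R3.Diag Pool.Agent.H476R3.ThF Pool.Agent.Y796.DG

universe u

/-- `G` is isomorphic to a diagram group `D(P, w)`, where `P` is a semigroup presentation `⟨α | R⟩`,
finite or infinite, and `w` is a nonempty word. -/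
def IsDiagramGroup (G : Type) [Group G] : Prop :=
  ∃ (α : Type u) (R : Set (List α × List α)) (w : List α),
    (∀ r ∈ R, r.1 ≠ [] ∧ r.2 ≠ []) ∧ w ≠ [] ∧ Nonempty (G ≃* DiagramGroup R w)

/-- `G` is isomorphic to a retract of a diagram group: there are homomorphisms `ι : G → D(P, w)` and
`ρ : D(P, w) → G` with `ρ ∘ ι = id`. -/
def IsRetractOfDiagramGroup (G : Type) [Group G] : Prop :=
  ∃ (α : Type u) (R : Set (List α × List α)) (w : List α),
    (∀ r ∈ R, r.1 ≠ [] ∧ r.2 ≠ []) ∧ w ≠ [] ∧
      ∃ (ι : G →* DiagramGroup R w) (ρ : DiagramGroup R w →* G), ∀ g : G, ρ (ι g) = g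

/-- **Thompson's group `F` has infinitely many finitely generated subgroups no finite index subgroup
of which is a diagram group, and they can be found inside `ℤ ≀ ℤ`.**

There is an embedding `Φ` of `ℤ ≀ ℤ` in `F` such that for every `n ≥ 2` the image of
`H_n = {(f, k) : n divides the sum of f}`, a normal subgroup of index `n` of `ℤ ≀ ℤ`, is finitely
generated and no subgroup `K` of finite index of it (itself included) is isomorphic to a diagram
group `D(P, w)`, or even to a retract of a diagram group, for any semigroup presentation `P` (finite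
or infinite) and any base word `w`. The groups `H_n` are pairwise non-isomorphic. -/
theorem result : ∃ Φ : ZwrZ →* F, Function.Injective Φ ∧
    (∀ n m : ℕ, 2 ≤ n → 2 ≤ m → Nonempty (ZwrZ.Hn n ≃* ZwrZ.Hn m) → n = m) ∧
    ∀ n : ℕ, 2 ≤ n →
      (ZwrZ.Hn n).Normal ∧ (ZwrZ.Hn n).index = n ∧ ((ZwrZ.Hn n).map Φ).FG ∧
      ∀ K : Subgroup F, K ≤ (ZwrZ.Hn n).map Φ → K.relIndex ((ZwrZ.Hn n).map Φ) ≠ 0 →
        ¬ IsDiagramGroup.{u} K ∧ ¬ IsRetractOfDiagramGroup.{u} K := by
  refine ⟨Phi, Phi_injective, ?_, ?_⟩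
  · intro n m hn hm ⟨e⟩
    exact Nat.dvd_antisymm (ZwrZ.dvd_of_iso (by omega) e) (ZwrZ.dvd_of_iso (by omega) e.symm)
  intro n hn
  have hidx : (ZwrZ.Hn n).index = n := ZwrZ.index_Hn (by omega)
  have hfg : Group.FG ZwrZ := ZwrZ.fg
  refine ⟨inferInstance, hidx, ?_, ?_⟩
  · have : (ZwrZ.Hn n).FiniteIndex := ⟨by omega⟩
    have h1 : Group.FG (ZwrZ.Hn n) := inferInstance
    rw [← Group.fg_iff_subgroup_fg]
    exact Group.fg_of_surjective
      (f := ((ZwrZ.Hn n).equivMapOfInjective Phi Phi_injective).toMonoidHom)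
      ((ZwrZ.Hn n).equivMapOfInjective Phi Phi_injective).surjective
  intro K hK hKi
  -- the preimage of `K`
  let K' : Subgroup ZwrZ := K.comap Phi
  have hle : K' ≤ ZwrZ.Hn n := by
    intro u hu
    obtain ⟨v, hv, e⟩ := hK hu
    rw [← Phi_injective e]
    exact hv
  have hKK : K = K'.map Phi := by
    apply le_antisymm
    · intro x hx
      obtain ⟨v, hv, e⟩ := hK hx
      exact ⟨v, by change Phi v ∈ K; rw [e]; exact hx, e⟩
    · rintro _ ⟨v, hv, rfl⟩
      exact hv
  have hi : K'.index ≠ 0 := by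
    rw [← Subgroup.relIndex_mul_index hle, hidx, Subgroup.relIndex_comap]
    exact mul_ne_zero hKi (by omega)
  have : K'.FiniteIndex := ⟨hi⟩
  have hfg' : Group.FG K' := inferInstance
  obtain ⟨c, hc, N, hN, hcN⟩ := ZwrZ.exists_torsion hi hn (fun u hu => hle hu)
  have key : ¬ IsRetractOfDiagramGroup.{u} K := by
    rintro ⟨α, R, w, hR, -, ι, ρ, hr⟩
    let e : K' ≃* K := (K'.equivMapOfInjective Phi Phi_injective).trans
      (MulEquiv.subgroupCongr hKK.symm)
    refine not_retract hc hN hcN hR w (ι.comp e.toMonoidHom) (e.symm.toMonoidHom.comp ρ) ?_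
    refine MonoidHom.ext fun x => ?_
    have h1 : ρ (ι (e x)) = e x := hr (e x)
    change e.symm (ρ (ι (e x))) = x
    rw [h1, e.symm_apply_apply]
  refine ⟨?_, key⟩
  rintro ⟨α, R, w, hR, hw, ⟨e⟩⟩
  exact key ⟨α, R, w, hR, hw, e.toMonoidHom, e.symm.toMonoidHom, fun x => e.symm_apply_apply x⟩

end Pool.Agent.Results.MP_24b811_al.NeverVirtuallyDiagramGroup
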